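import Pool.Agent.Lib_helper72.ASN.Main

/-!
# The cuts and the colourings without two vertices (MP_cfd6b1_co)
-/

set_option autoImplicit false
set_option maxRecDepth 100000

namespace Pool.Agent.ASN

theorem cutS_eq (s : ℕ → Bool) (L : List (List ℕ)) (k : ℕ) :
    cutS s L k = ∑ i ∈ Finset.range L.length,
      ((L.getD i []).filter (fun j => s j ≠ s (k + i))).length := by
  induction L generalizing k with
  | nil => rfl
  | cons B L ih =>
    rw [List.length_cons, Finset.sum_range_succ']
    unfold cutS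
    rw [ih (k + 1), add_comm]
    congr 1
    refine Finset.sum_congr rfl fun i _ => ?_
    rw [List.getD_cons_succ, add_assoc, add_comm 1 i]

theorem BL_getD (i : ℕ) (hi : i < 58) :
    BL.getD i [] = [nb i 0, nb i 1, nb i 2].filter (fun j => j < i) := by
  unfold BL
  rw [List.getD_eq_getElem?_getD, List.getElem?_map, List.getElem?_range hi]
  rfl

/-- the characteristic function of a set of vertices -/
def chi (S : Finset (Fin 58)) (i : ℕ) : Bool :=
  if h : i < 58 then decide ((⟨i, h⟩ : Fin 58) ∈ S) else false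

theorem chi_true (S : Finset (Fin 58)) (v : Fin 58) : chi S v.val = true ↔ v ∈ S := by
  unfold chi
  rw [dif_pos v.2, decide_eq_true_iff]

theorem chi_false (S : Finset (Fin 58)) (v : Fin 58) : chi S v.val = false ↔ v ∉ S := by
  unfold chi
  rw [dif_pos v.2, decide_eq_false_iff_not]

theorem mem_fib (S : Finset (Fin 58)) (i a c : Fin 58) (ha : a ∈ S) (hc : c ∉ S)
    (hadj : G.Adj a c) (hm : max a.val c.val = i.val) :
    (a, c) ∈ ((Finset.univ : Finset (Fin 58 × Fin 58)).filter
        (fun p => p.1 ∈ S ∧ p.2 ∉ S ∧ G.Adj p.1 p.2)).filter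
        (fun p => max p.1.val p.2.val = i.val) := by
  simp only [Finset.mem_filter, Finset.mem_univ, true_and]
  exact And.intro (And.intro ha (And.intro hc hadj)) hm

theorem fiber (S : Finset (Fin 58)) (i : Fin 58) :
    ((BL.getD i []).filter (fun j => chi S j ≠ chi S i)).length ≤
      (((Finset.univ : Finset (Fin 58 × Fin 58)).filter
        (fun p => p.1 ∈ S ∧ p.2 ∉ S ∧ G.Adj p.1 p.2)).filter
        (fun p => max p.1.val p.2.val = i.val)).card := by
  have hnd : ((BL.getD i []).filter (fun j => chi S j ≠ chi S i)).Nodup := by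
    apply List.Nodup.filter
    rw [BL_getD i i.2]
    apply List.Nodup.filter
    obtain ⟨h1, h2, h3⟩ := f_dist i
    simp [h1, h2, h3]
  rw [← List.toFinset_card_of_nodup hnd]
  refine Finset.card_le_card_of_injOn
    (fun j => if hj : j < 58 then (if chi S i = true then (i, ⟨j, hj⟩) else (⟨j, hj⟩, i))
      else (i, i)) ?_ ?_
  · intro j hj
    rw [Finset.mem_coe, List.mem_toFinset, List.mem_filter, BL_getD i i.2, List.mem_filter] at hj
    have h1 := hj.1.1
    have h2 := hj.1.2
    have h3 := hj.2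
    simp only [decide_eq_true_eq] at h2
    have hj58 : j < 58 := lt_trans h2 i.2
    have hadj : G.Adj i ⟨j, hj58⟩ := by
      have h4 : ∀ t : Fin 3, j = nb i t → G.Adj i ⟨j, hj58⟩ := by
        intro t ht
        have h5 := adj_nf i t
        have h6 : nf i t = ⟨j, hj58⟩ := Fin.ext ht.symm
        rwa [h6] at h5
      simp only [List.mem_cons, List.not_mem_nil, or_false] at h1
      rcases h1 with h1 | h1 | h1
      · exact h4 0 h1
      · exact h4 1 h1
      · exact h4 2 h1
    have h3' : chi S j ≠ chi S i := by simpa using h3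
    rw [Finset.mem_coe]
    beta_reduce
    rw [dif_pos hj58]
    by_cases hi : chi S i = true
    · rw [if_pos hi]
      have hj0 : chi S j = false := by
        rw [hi] at h3'
        simpa using h3'
      exact mem_fib S i i ⟨j, hj58⟩ ((chi_true S i).1 hi) ((chi_false S ⟨j, hj58⟩).1 hj0) hadj
        (max_eq_left h2.le)
    · rw [if_neg hi]
      have hi0 : chi S i = false := by simpa using hi
      have hj1 : chi S j = true := by
        rw [hi0] at h3'
        simpa using h3'
      exact mem_fib S i ⟨j, hj58⟩ i ((chi_true S ⟨j, hj58⟩).1 hj1) ((chi_false S i).1 hi0)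
        hadj.symm (max_eq_right h2.le)
  · intro j hj k hk hjk
    rw [Finset.mem_coe, List.mem_toFinset, List.mem_filter, BL_getD i i.2, List.mem_filter] at hj hk
    have hj2 : j < 58 := by
      have := hj.1.2
      simp only [decide_eq_true_eq] at this
      exact lt_trans this i.2
    have hk2 : k < 58 := by
      have := hk.1.2
      simp only [decide_eq_true_eq] at this
      exact lt_trans this i.2
    simp only [dif_pos hj2, dif_pos hk2] at hjk
    by_cases hi : chi S i = true
    · rw [if_pos hi, if_pos hi, Prod.mk.injEq] at hjk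
      exact congrArg Fin.val hjk.2
    · rw [if_neg hi, if_neg hi, Prod.mk.injEq] at hjk
      exact congrArg Fin.val hjk.1

theorem cut_le (S : Finset (Fin 58)) :
    cutS (chi S) BL 0 ≤ ((Finset.univ : Finset (Fin 58 × Fin 58)).filter
      (fun p => p.1 ∈ S ∧ p.2 ∉ S ∧ G.Adj p.1 p.2)).card := by
  rw [cutS_eq]
  have hlen : BL.length = 58 := by simp [BL]
  rw [hlen, Finset.card_eq_sum_card_fiberwise (f := fun p : Fin 58 × Fin 58 => max p.1.val p.2.val)
    (t := Finset.range 58)]
  · refine Finset.sum_le_sum fun i hi => ?_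
    rw [Finset.mem_range] at hi
    have h := fiber S ⟨i, hi⟩
    rw [zero_add]
    exact h
  · intro p _
    rw [Finset.mem_coe, Finset.mem_range]
    exact max_lt p.1.2 p.2.2

/-- a cycle has two different vertices -/
theorem two_of_cycle {v : Fin 58} {w : G.Walk v v} (hw : w.IsCycle) :
    ∃ x ∈ w.support, ∃ y ∈ w.support, x ≠ y := by
  match w, hw with
  | .nil, hw => exact absurd hw.three_le_length (by simp)
  | .cons (v := z) h p, _ =>
    refine ⟨v, SimpleGraph.Walk.start_mem_support _, z, ?_, h.ne⟩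
    rw [SimpleGraph.Walk.support_cons]
    exact List.mem_cons_of_mem _ (SimpleGraph.Walk.start_mem_support _)

theorem cyc (S : Finset (Fin 58))
    (h1 : ∃ (v : Fin 58) (w : G.Walk v v), w.IsCycle ∧ ∀ x ∈ w.support, x ∈ S)
    (h2 : ∃ (v : Fin 58) (w : G.Walk v v), w.IsCycle ∧ ∀ x ∈ w.support, x ∉ S) :
    4 ≤ ((Finset.univ : Finset (Fin 58 × Fin 58)).filter
      (fun p => p.1 ∈ S ∧ p.2 ∉ S ∧ G.Adj p.1 p.2)).card := by
  have hlen : BL.length = 58 := by simp [BL]
  have key := srch_sound (chi S) BL 0 0 0 0 0 (by intro j hj; omega) (by simp) (by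
    intro i B hB j hj
    have hi : i < 58 := by
      by_contra hcon
      rw [List.getElem?_eq_none (by rw [hlen]; omega)] at hB
      exact absurd hB (by simp)
    have e1 : B = BL.getD i [] := by
      rw [List.getD_eq_getElem?_getD, hB]; rfl
    rw [e1, BL_getD i hi, List.mem_filter] at hj
    simpa using hj.2) (by simp) (by simp) f_cut
  rw [hlen, zero_add, zero_add] at key
  rcases key with key | key | key
  · exact key.trans (cut_le S)
  · exfalso
    obtain ⟨v, w, hw, hS⟩ := h1
    obtain ⟨x, hx, y, hy, hxy⟩ := two_of_cycle hw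
    have e := Finset.card_le_one.1 key x.val
      (by rw [Finset.mem_filter, Finset.mem_range]; exact ⟨x.2, (chi_true S x).2 (hS x hx)⟩) y.val
      (by rw [Finset.mem_filter, Finset.mem_range]; exact ⟨y.2, (chi_true S y).2 (hS y hy)⟩)
    exact hxy (Fin.ext e)
  · exfalso
    obtain ⟨v, w, hw, hS⟩ := h2
    obtain ⟨x, hx, y, hy, hxy⟩ := two_of_cycle hw
    have e := Finset.card_le_one.1 key x.val
      (by rw [Finset.mem_filter, Finset.mem_range]; exact ⟨x.2, (chi_false S x).2 (hS x hx)⟩) y.val
      (by rw [Finset.mem_filter, Finset.mem_range]; exact ⟨y.2, (chi_false S y).2 (hS y hy)⟩)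
    exact hxy (Fin.ext e)

/-! ### Colourings of the graph without two vertices -/

/-- the colouring for the pair `x`, `y` -/
def co (x y : ℕ) (u v : Fin 58) : Fin 3 :=
  ⟨dg (code x y) (2 * eo u v) % 3, Nat.mod_lt _ (by norm_num)⟩

theorem co_symm (x y : ℕ) (u v : Fin 58) (h : G.Adj u v) : co x y u v = co x y v u := by
  unfold co
  have h1 := f_eo u v h
  apply Fin.ext
  simp only [h1]

theorem co_ne (x y : Fin 58) (hxy : x < y) (u : Fin 58) (hx : u ≠ x) (hy : u ≠ y) :
    co x y u (nf u 0) ≠ co x y u (nf u 1) ∧ co x y u (nf u 0) ≠ co x y u (nf u 2) ∧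
      co x y u (nf u 1) ≠ co x y u (nf u 2) := by
  have h1 := f_pairs
  unfold chkP at h1
  rw [List.all_eq_true] at h1
  have h2 := h1 x (List.mem_range.2 x.2)
  rw [List.all_eq_true] at h2
  have h3 := h2 y (List.mem_range.2 y.2)
  rw [Bool.or_eq_true] at h3
  have h4 : okP x y (code x y) = true := by
    rcases h3 with h3 | h3
    · rw [Nat.ble_eq] at h3
      exact absurd h3 (not_le.2 hxy)
    · exact h3
  unfold okP at h4
  rw [List.all_eq_true] at h4
  have h5 := h4 (u.val, 2 * ei u 0, 2 * ei u 1, 2 * ei u 2) (by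
    rw [f_VL, List.mem_map]
    exact ⟨u.val, List.mem_range.2 u.2, rfl⟩)
  simp only [Bool.or_eq_true, Bool.and_eq_true, Bool.not_eq_true', Nat.beq_eq,
    Nat.ble_eq] at h5
  rcases h5 with (h5 | h5) | h5
  · exact absurd (Fin.ext h5) hx
  · exact absurd (Fin.ext h5) hy
  obtain ⟨⟨⟨⟨⟨a1, a2⟩, a3⟩, b1⟩, b2⟩, b3⟩ := h5
  obtain ⟨e0, e1, e2⟩ := f_eo0 u
  have hne : ∀ p q : ℕ, Nat.beq (dg (code x y) p) (dg (code x y) q) = false →
      dg (code x y) p ≤ 2 → dg (code x y) q ≤ 2 →
      dg (code x y) p % 3 ≠ dg (code x y) q % 3 := by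
    intro p q h hp hq he
    rw [Nat.mod_eq_of_lt (by omega), Nat.mod_eq_of_lt (by omega)] at he
    rw [he] at h
    simp at h
  refine ⟨fun h => ?_, fun h => ?_, fun h => ?_⟩
  · have h6 := congrArg Fin.val h
    change dg (code x y) (2 * eo u (nb u 0)) % 3 = dg (code x y) (2 * eo u (nb u 1)) % 3 at h6
    rw [e0, e1] at h6
    exact hne _ _ a1 b1 b2 h6
  · have h6 := congrArg Fin.val h
    change dg (code x y) (2 * eo u (nb u 0)) % 3 = dg (code x y) (2 * eo u (nb u 2)) % 3 at h6
    rw [e0, e2] at h6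
    exact hne _ _ a2 b1 b3 h6
  · have h6 := congrArg Fin.val h
    change dg (code x y) (2 * eo u (nb u 1)) % 3 = dg (code x y) (2 * eo u (nb u 2)) % 3 at h6
    rw [e1, e2] at h6
    exact hne _ _ a3 b2 b3 h6

theorem co_proper (x y : Fin 58) (hxy : x < y) (u v w : Fin 58) (hx : u ≠ x) (hy : u ≠ y)
    (hv : G.Adj u v) (hw : G.Adj u w) (hvw : v ≠ w) : co x y u v ≠ co x y u w := by
  obtain ⟨h1, h2, h3⟩ := co_ne x y hxy u hx hy
  rcases adj_cases u v hv with rfl | rfl | rfl <;> rcases adj_cases u w hw with rfl | rfl | rfl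
  · exact absurd rfl hvw
  · exact h1
  · exact h2
  · exact h1.symm
  · exact absurd rfl hvw
  · exact h3
  · exact h2.symm
  · exact h3.symm
  · exact absurd rfl hvw

theorem bic (x y : Fin 58) (hxy : x ≠ y) : ∃ c : Fin 58 → Fin 58 → Fin 3,
    (∀ u v, u ≠ x → u ≠ y → v ≠ x → v ≠ y → G.Adj u v → c u v = c v u) ∧
    (∀ u v w, u ≠ x → u ≠ y → v ≠ x → v ≠ y → w ≠ x → w ≠ y →
      G.Adj u v → G.Adj u w → v ≠ w → c u v ≠ c u w) := by
  rcases lt_or_gt_of_ne hxy with h | h
  · exact ⟨co x y, fun u v _ _ _ _ ha => co_symm x y u v ha,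
      fun u v w hx hy _ _ _ _ hv hw hvw => co_proper x y h u v w hx hy hv hw hvw⟩
  · exact ⟨co y x, fun u v _ _ _ _ ha => co_symm y x u v ha,
      fun u v w hx hy _ _ _ _ hv hw hvw => co_proper y x h u v w hy hx hv hw hvw⟩

end Pool.Agent.ASN
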