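import Pool.Agent.Lib_helper72.ASN.Data
import Pool.Agent.Lib_helper72.ASN.Rows

/-!
# A graph with 58 vertices (MP_cfd6b1_co)
-/

set_option autoImplicit false

namespace Pool.Agent.ASN

/-- the neighbours of `u` -/
def nb (u i : ℕ) : ℕ := (NB >>> (8 * (3 * u + i))) % 256

/-- the numbers of the edges of `u` -/
def ei (u i : ℕ) : ℕ := (EI >>> (8 * (3 * u + i))) % 256

/-- adjacency -/
def aj (u v : ℕ) : Bool := AM.testBit (58 * u + v)

/-- the number of the edge from `u` to `v` -/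
def eo (u v : ℕ) : ℕ := if nb u 0 = v then ei u 0 else if nb u 1 = v then ei u 1 else ei u 2

/-- the first end of an edge -/
def pe (e : ℕ) : Fin 58 := ⟨(EP >>> (16 * e)) % 256 % 58, Nat.mod_lt _ (by norm_num)⟩

/-- the second end of an edge -/
def qe (e : ℕ) : Fin 58 := ⟨(EP >>> (16 * e + 8)) % 256 % 58, Nat.mod_lt _ (by norm_num)⟩

/-- the value of `b` -/
def bN (u : ℕ) : ℕ := (BB >>> (2 * u)) % 4

theorem f_symm : ∀ u v : Fin 58, aj u v = true → aj v u = true := by decide +kernel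

theorem f_irr : ∀ u : Fin 58, aj u u = false := by decide +kernel

theorem f_nb : ∀ u : Fin 58, ∀ i : Fin 3, nb u i < 58 ∧ aj u (nb u i) = true := by decide +kernel

theorem f_nb3 : ∀ u v : Fin 58, aj u v = true →
    v.val = nb u 0 ∨ v.val = nb u 1 ∨ v.val = nb u 2 := by decide +kernel

theorem f_dist : ∀ u : Fin 58, nb u 0 ≠ nb u 1 ∧ nb u 0 ≠ nb u 2 ∧ nb u 1 ≠ nb u 2 := by
  decide +kernel

theorem f_eo : ∀ u v : Fin 58, aj u v = true → eo u v = eo v u := by decide +kernel

theorem f_eo0 : ∀ u : Fin 58, eo u (nb u 0) = ei u 0 ∧ eo u (nb u 1) = ei u 1 ∧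
    eo u (nb u 2) = ei u 2 := by decide +kernel

theorem f_ends : ∀ u : Fin 58, ∀ i : Fin 3,
    ((pe (ei u i)).val = u.val ∧ (qe (ei u i)).val = nb u i) ∨
    ((pe (ei u i)).val = nb u i ∧ (qe (ei u i)).val = u.val) := by decide +kernel

theorem f_tri : ∀ u : Fin 58, ∀ i j : Fin 3, aj (nb u i) (nb u j) = false := by decide +kernel

theorem f_quad : ∀ u : Fin 58, ∀ i j k : Fin 3, i ≠ j → nb (nb u i) k ≠ u.val →
    aj (nb u j) (nb (nb u i) k) = false := by decide +kernel

/-- the value of `b` as an element of `Fin 4` -/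
def b4 (u : ℕ) : Fin 4 := ⟨bN u, Nat.mod_lt _ (by norm_num)⟩

deriving instance DecidableEq for Vx

theorem f_Lb : Lb = (List.range 58).map (fun u => (⟨ei u 0, ei u 1, ei u 2, b4 u⟩ : Vx)) := by
  decide +kernel

theorem f_L0 : L0 = (List.range 58).map (fun u => (⟨ei u 0, ei u 1, ei u 2, 0⟩ : Vx)) := by
  decide +kernel

theorem f_kb : (run Lb [] .y).isN = true := by decide +kernel

theorem f_k0 : (run L0 [] .y).isN = true := by decide +kernel

/-- the earlier neighbours -/
def BL : List (List ℕ) :=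
  (List.range 58).map (fun u => [nb u 0, nb u 1, nb u 2].filter (fun j => j < u))

theorem f_cut : srch BL 0 0 0 0 0 = true := by decide +kernel

/-- the colour of the edge with the number `e / 2` -/
def dg (c e : ℕ) : ℕ := Nat.mod (Nat.shiftRight c e) 4

/-- the colouring for the pair `x`, `y` -/
def code (x y : ℕ) : ℕ := ((ROWS.getD x 0) >>> (174 * (y - x - 1))) % 2 ^ 174

/-- all the vertices except `x`, `y` have three different colours -/
def okP (x y c : ℕ) : Bool := VL.all fun t =>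
  (Nat.beq t.1 x) || (Nat.beq t.1 y) ||
    (!(Nat.beq (dg c t.2.1) (dg c t.2.2.1)) && !(Nat.beq (dg c t.2.1) (dg c t.2.2.2)) &&
      !(Nat.beq (dg c t.2.2.1) (dg c t.2.2.2)) && Nat.ble (dg c t.2.1) 2 &&
      Nat.ble (dg c t.2.2.1) 2 && Nat.ble (dg c t.2.2.2) 2)

theorem f_VL : VL = (List.range 58).map (fun u => (u, 2 * ei u 0, 2 * ei u 1, 2 * ei u 2)) := by
  decide +kernel

end Pool.Agent.ASN
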