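import Pool.Agent.Lib_helper72.ASN.Graph

/-!
# The colourings (MP_cfd6b1_co)
-/

set_option autoImplicit false

namespace Pool.Agent.ASN

/-- all the pairs -/
def chkP : Bool := (List.range 58).all fun x => (List.range 58).all fun y =>
  Nat.ble y x || okP x y (code x y)

theorem f_pairs : chkP = true := by decide +kernel

end Pool.Agent.ASN
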