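import Pool.Agent.Lib_helper72.ASN.Graph
import Pool.Agent.Lib_helper72.ASN.Pairs

/-!
# The graph with 58 vertices is a bicritical snark that is not almost connected (MP_cfd6b1_co)
-/

set_option autoImplicit false

namespace Pool.Agent.ASN

/-- the graph -/
def G : SimpleGraph (Fin 58) where
  Adj u v := aj u v = true
  symm := ⟨fun u v h => f_symm u v h⟩
  loopless := ⟨fun u h => by
    have h1 := f_irr u
    change aj u u = true at h
    rw [h1] at h
    exact absurd h (by simp)⟩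

instance instDecG : DecidableRel G.Adj := fun u v => inferInstanceAs (Decidable (aj u v = true))

theorem adj_iff (u v : Fin 58) : G.Adj u v ↔ aj u v = true := Iff.rfl

/-- the neighbours as vertices -/
def nf (u : Fin 58) (i : Fin 3) : Fin 58 := ⟨nb u i, (f_nb u i).1⟩

theorem adj_nf (u : Fin 58) (i : Fin 3) : G.Adj u (nf u i) := (f_nb u i).2

theorem adj_cases (u v : Fin 58) (h : G.Adj u v) : v = nf u 0 ∨ v = nf u 1 ∨ v = nf u 2 := by
  rcases f_nb3 u v h with h | h | h
  · exact Or.inl (Fin.ext h)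
  · exact Or.inr (Or.inl (Fin.ext h))
  · exact Or.inr (Or.inr (Fin.ext h))

theorem nf_ne (u : Fin 58) : nf u 0 ≠ nf u 1 ∧ nf u 0 ≠ nf u 2 ∧ nf u 1 ≠ nf u 2 := by
  obtain ⟨h1, h2, h3⟩ := f_dist u
  exact ⟨fun h => h1 (congrArg Fin.val h), fun h => h2 (congrArg Fin.val h),
    fun h => h3 (congrArg Fin.val h)⟩

theorem reg : G.IsRegularOfDegree 3 := by
  intro v
  have h1 : G.neighborFinset v = {nf v 0, nf v 1, nf v 2} := by
    ext u
    rw [SimpleGraph.mem_neighborFinset, Finset.mem_insert, Finset.mem_insert,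
      Finset.mem_singleton]
    constructor
    · exact adj_cases v u
    · rintro (rfl | rfl | rfl)
      · exact adj_nf v 0
      · exact adj_nf v 1
      · exact adj_nf v 2
  obtain ⟨h2, h3, h4⟩ := nf_ne v
  rw [← SimpleGraph.card_neighborFinset_eq_degree, h1]
  exact Finset.card_eq_three.2 ⟨_, _, _, h2, h3, h4, rfl⟩

theorem no_tri (u v w : Fin 58) (h1 : G.Adj u v) (h2 : G.Adj u w) (h3 : G.Adj v w) : False := by
  have key : ∀ i j : Fin 3, ¬ G.Adj (nf u i) (nf u j) := by
    intro i j h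
    have h4 := f_tri u i j
    change aj (nb u i) (nb u j) = true at h
    rw [h4] at h
    exact absurd h (by simp)
  rcases adj_cases u v h1 with rfl | rfl | rfl <;> rcases adj_cases u w h2 with rfl | rfl | rfl <;>
    exact key _ _ h3

theorem ex_nf (u v : Fin 58) (h : G.Adj u v) : ∃ i, v = nf u i := by
  rcases adj_cases u v h with h | h | h
  · exact ⟨0, h⟩
  · exact ⟨1, h⟩
  · exact ⟨2, h⟩

theorem no_quad (u v w x : Fin 58) (h1 : G.Adj u v) (h2 : G.Adj v w) (h3 : G.Adj w x)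
    (h4 : G.Adj x u) (h5 : u ≠ w) (h6 : v ≠ x) : False := by
  obtain ⟨i, rfl⟩ := ex_nf u v h1
  obtain ⟨j, rfl⟩ := ex_nf u x h4.symm
  obtain ⟨k, rfl⟩ := ex_nf (nf u i) w h2
  have hij : i ≠ j := fun h => h6 (by rw [h])
  have h7 := f_quad u i j k hij (fun h => h5 (Fin.ext h.symm))
  have h8 : aj (nb u j) (nb (nb u i) k) = true := h3.symm
  rw [h7] at h8
  exact absurd h8 (by simp)

theorem girth : 5 ≤ G.egirth := by
  rw [SimpleGraph.le_egirth]
  intro a w hw
  have h3 := hw.three_le_length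
  by_contra hcon
  have h4 : w.length < 5 := by
    rw [not_le] at hcon
    exact_mod_cast hcon
  match w, hw, h3, h4 with
  | .nil, hw, h3, h4 => simp at h3
  | .cons _ .nil, hw, h3, h4 => simp at h3
  | .cons _ (.cons _ .nil), hw, h3, h4 => simp at h3
  | .cons e1 (.cons e2 (.cons e3 .nil)), hw, h3, h4 =>
    exact no_tri _ _ _ e1 e3.symm e2
  | .cons e1 (.cons e2 (.cons e3 (.cons e4 .nil))), hw, h3, h4 =>
    have h5 := hw.support_nodup
    simp only [SimpleGraph.Walk.support_cons, SimpleGraph.Walk.support_nil, List.tail_cons,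
      List.nodup_cons, List.mem_cons, List.not_mem_nil, or_false, not_or, not_false_eq_true,
      List.nodup_nil, and_true] at h5
    exact no_quad _ _ _ _ e1 e2 e3 e4 (fun h => h5.2.1.2 h.symm) h5.1.2.1
  | .cons _ (.cons _ (.cons _ (.cons _ (.cons _ p)))), hw, h3, h4 =>
    simp only [SimpleGraph.Walk.length_cons] at h4
    omega

/-! ### Colourings and flows -/

theorem no_x (L : List Vx) (β : ℕ → Fin 4)
    (hL : L = (List.range 58).map (fun u => (⟨ei u 0, ei u 1, ei u 2, β u⟩ : Vx)))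
    (hk : (run L [] .y).isN = true) (x : ℕ → Fin 3) :
    ¬ ∀ u : Fin 58, ad (ad (g4 (x (ei u 0))) (g4 (x (ei u 1)))) (g4 (x (ei u 2))) = β u := by
  intro h
  apply run_sound L hk x
  intro v hv
  rw [hL, List.mem_map] at hv
  obtain ⟨u, hu, rfl⟩ := hv
  rw [List.mem_range] at hu
  exact h ⟨u, hu⟩

/-- a symmetric function on the edges, read at the edge with a given number -/
theorem read {α : Type} (c : Fin 58 → Fin 58 → α) (hc : ∀ u v, G.Adj u v → c u v = c v u)
    (u : Fin 58) (i : Fin 3) : c (pe (ei u i)) (qe (ei u i)) = c u (nf u i) := by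
  rcases f_ends u i with ⟨h1, h2⟩ | ⟨h1, h2⟩
  · have e1 : pe (ei u i) = u := Fin.ext h1
    have e2 : qe (ei u i) = nf u i := Fin.ext h2
    rw [e1, e2]
  · have e1 : pe (ei u i) = nf u i := Fin.ext h1
    have e2 : qe (ei u i) = u := Fin.ext h2
    rw [e1, e2]
    exact (hc _ _ (adj_nf u i)).symm

theorem three : ∀ a b c : Fin 3, a ≠ b → a ≠ c → b ≠ c → ad (ad (g4 a) (g4 b)) (g4 c) = 0 := by
  decide

theorem not_col : ¬ ∃ c : Fin 58 → Fin 58 → Fin 3,
    (∀ u v, G.Adj u v → c u v = c v u) ∧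
    (∀ u v w, G.Adj u v → G.Adj u w → v ≠ w → c u v ≠ c u w) := by
  rintro ⟨c, h1, h2⟩
  apply no_x L0 (fun _ => 0) f_L0 f_k0 (fun e => c (pe e) (qe e))
  intro u
  have r0 := read c h1 u 0
  have r1 := read c h1 u 1
  have r2 := read c h1 u 2
  change c (pe (ei u 0)) (qe (ei u 0)) = _ at r0
  change c (pe (ei u 1)) (qe (ei u 1)) = _ at r1
  change c (pe (ei u 2)) (qe (ei u 2)) = _ at r2
  obtain ⟨n1, n2, n3⟩ := nf_ne u
  rw [r0, r1, r2]
  exact three _ _ _ (h2 u _ _ (adj_nf u 0) (adj_nf u 1) n1)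
    (h2 u _ _ (adj_nf u 0) (adj_nf u 2) n2) (h2 u _ _ (adj_nf u 1) (adj_nf u 2) n3)

/-- the group of order four as `Fin 4` -/
def ph (z : ZMod 2 × ZMod 2) : Fin 4 :=
  if z = 0 then 0 else if z = (1, 0) then 1 else if z = (0, 1) then 2 else 3

/-- the nonzero elements as `Fin 3` -/
def ta (z : ZMod 2 × ZMod 2) : Fin 3 := if z = (1, 0) then 0 else if z = (0, 1) then 1 else 2

/-- the inverse of `ph` -/
def ps (a : Fin 4) : ZMod 2 × ZMod 2 :=
  if a = 0 then 0 else if a = 1 then (1, 0) else if a = 2 then (0, 1) else (1, 1)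

theorem ph_add : ∀ y z, ph (y + z) = ad (ph y) (ph z) := by decide

theorem ta_ph : ∀ z, z ≠ 0 → g4 (ta z) = ph z := by decide

theorem ph_ps : ∀ a, ph (ps a) = a := by decide

theorem neg_eq : ∀ z : ZMod 2 × ZMod 2, -z = z := by decide

/-- the function `b` -/
def b (v : Fin 58) : ZMod 2 × ZMod 2 := ps (b4 v)

theorem b_sum : ∑ v, b v = 0 := by decide +kernel

theorem b_ne : b ≠ 0 := by
  intro h
  have h1 := congrFun h 5
  revert h1
  decide +kernel

theorem no_flow : ¬ ∃ f : Fin 58 → Fin 58 → ZMod 2 × ZMod 2,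
    (∀ u v, G.Adj u v → f u v ≠ 0) ∧ (∀ u v, ¬ G.Adj u v → f u v = 0) ∧
    (∀ u v, f u v = - f v u) ∧ ∀ v, ∑ u, f v u = b v := by
  rintro ⟨f, h1, h2, h3, h4⟩
  have h3' : ∀ u v, G.Adj u v → f u v = f v u := by
    intro u v _
    rw [h3 u v, neg_eq]
  apply no_x Lb b4 f_Lb f_kb (fun e => ta (f (pe e) (qe e)))
  intro u
  have r0 := read f h3' u 0
  have r1 := read f h3' u 1
  have r2 := read f h3' u 2
  change f (pe (ei u 0)) (qe (ei u 0)) = _ at r0
  change f (pe (ei u 1)) (qe (ei u 1)) = _ at r1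
  change f (pe (ei u 2)) (qe (ei u 2)) = _ at r2
  obtain ⟨n1, n2, n3⟩ := nf_ne u
  rw [r0, r1, r2, ta_ph _ (h1 _ _ (adj_nf u 0)), ta_ph _ (h1 _ _ (adj_nf u 1)),
    ta_ph _ (h1 _ _ (adj_nf u 2)), ← ph_add, ← ph_add]
  have h5 : ∑ w, f u w = f u (nf u 0) + f u (nf u 1) + f u (nf u 2) := by
    have h6 : ∑ w ∈ ({nf u 0, nf u 1, nf u 2} : Finset (Fin 58)), f u w = ∑ w, f u w := by
      refine Finset.sum_subset (Finset.subset_univ _) ?_
      intro w _ hw
      apply h2
      intro hadj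
      apply hw
      rw [Finset.mem_insert, Finset.mem_insert, Finset.mem_singleton]
      exact adj_cases u w hadj
    rw [← h6, Finset.sum_insert, Finset.sum_insert, Finset.sum_singleton, add_assoc]
    · rw [Finset.mem_singleton]; exact n3
    · rw [Finset.mem_insert, Finset.mem_singleton, not_or]; exact ⟨n1, n2⟩
  rw [← h5, h4, b, ph_ps]

end Pool.Agent.ASN
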