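import Mathlib

/-!
# A verified transfer computation (MP_cfd6b1_co)

`run` eliminates the vertices of a graph one after the other; the set of the possible values on the
edges that have one eliminated end is stored in a tree.
-/

set_option autoImplicit false

namespace Pool.Agent.ASN

/-- sets of words over `Fin 3` -/
inductive Tr where
  | n : Tr
  | y : Tr
  | b : Tr → Tr → Tr → Tr

namespace Tr

/-- a node, empty if all the subtrees are -/
def mk : Tr → Tr → Tr → Tr
  | .n, .n, .n => .n
  | s, t, u => .b s t u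

/-- union -/
def un : Tr → Tr → Tr
  | .n, t => t
  | .y, _ => .y
  | .b s1 s2 s3, t =>
    match t with
    | .n => .b s1 s2 s3
    | .y => .y
    | .b t1 t2 t3 => .b (un s1 t1) (un s2 t2) (un s3 t3)

/-- the words whose letter at the place `p` is `d`, with this letter deleted -/
def sel : Tr → ℕ → Fin 3 → Tr
  | .n, _, _ => .n
  | .y, _, _ => .y
  | .b s t u, p, d =>
    match p with
    | 0 => match d with
      | 0 => s
      | 1 => t
      | 2 => u
    | p + 1 => mk (sel s p d) (sel t p d) (sel u p d)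

/-- membership -/
def mem : Tr → List (Fin 3) → Prop
  | .n, _ => False
  | .y, _ => True
  | .b s t u, l =>
    match l with
    | [] => False
    | d :: l => match d with
      | 0 => mem s l
      | 1 => mem t l
      | 2 => mem u l

/-- the empty tree -/
def isN : Tr → Bool
  | .n => true
  | _ => false

theorem mem_cons (s t u : Tr) (d : Fin 3) (l : List (Fin 3)) :
    mem (.b s t u) (d :: l) ↔ (d = 0 ∧ mem s l) ∨ (d = 1 ∧ mem t l) ∨ (d = 2 ∧ mem u l) := by
  match d with
  | 0 => simp [mem]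
  | 1 => simp [mem]
  | 2 => simp [mem]

theorem mem_mk {s t u : Tr} {l : List (Fin 3)} (h : mem (.b s t u) l) : mem (mk s t u) l := by
  unfold mk
  split
  · match l with
    | [] => exact h
    | d :: l =>
      rw [mem_cons] at h
      simp [mem] at h
  · exact h

theorem mem_un (s t : Tr) (l : List (Fin 3)) (h : mem s l ∨ mem t l) : mem (un s t) l := by
  induction s generalizing t l with
  | n =>
    rcases h with h | h
    · exact h.elim
    · simpa [un] using h
  | y => trivial
  | b s1 s2 s3 h1 h2 h3 =>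
    match t with
    | .n =>
      rcases h with h | h
      · simpa [un] using h
      · exact h.elim
    | .y => trivial
    | .b t1 t2 t3 =>
      match l with
      | [] => rcases h with h | h <;> exact h.elim
      | d :: l =>
        rw [mem_cons, mem_cons] at h
        unfold un
        rw [mem_cons]
        rcases h with (⟨hd, h⟩ | ⟨hd, h⟩ | ⟨hd, h⟩) | (⟨hd, h⟩ | ⟨hd, h⟩ | ⟨hd, h⟩)
        · exact Or.inl ⟨hd, h1 _ _ (Or.inl h)⟩
        · exact Or.inr (Or.inl ⟨hd, h2 _ _ (Or.inl h)⟩)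
        · exact Or.inr (Or.inr ⟨hd, h3 _ _ (Or.inl h)⟩)
        · exact Or.inl ⟨hd, h1 _ _ (Or.inr h)⟩
        · exact Or.inr (Or.inl ⟨hd, h2 _ _ (Or.inr h)⟩)
        · exact Or.inr (Or.inr ⟨hd, h3 _ _ (Or.inr h)⟩)

theorem mem_sel (t : Tr) (p : ℕ) (d : Fin 3) (l : List (Fin 3)) (h : mem t l)
    (hp : l[p]? = some d) : mem (sel t p d) (l.eraseIdx p) := by
  induction t generalizing p l with
  | n => exact h.elim
  | y => trivial
  | b s1 s2 s3 h1 h2 h3 =>
    match l with
    | [] => exact h.elim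
    | e :: l =>
      rw [mem_cons] at h
      match p with
      | 0 =>
        simp only [List.getElem?_cons_zero, Option.some.injEq] at hp
        subst hp
        rcases h with ⟨rfl, h⟩ | ⟨rfl, h⟩ | ⟨rfl, h⟩ <;> simpa [sel] using h
      | p + 1 =>
        simp only [List.getElem?_cons_succ] at hp
        rw [List.eraseIdx_cons_succ]
        unfold sel
        apply mem_mk
        rw [mem_cons]
        rcases h with ⟨hd, h⟩ | ⟨hd, h⟩ | ⟨hd, h⟩
        · exact Or.inl ⟨hd, h1 p l h hp⟩
        · exact Or.inr (Or.inl ⟨hd, h2 p l h hp⟩)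
        · exact Or.inr (Or.inr ⟨hd, h3 p l h hp⟩)

end Tr

/-- addition in the group of order four and exponent two -/
def ad : Fin 4 → Fin 4 → Fin 4
  | 0, b => b
  | 1, 0 => 1
  | 1, 1 => 0
  | 1, 2 => 3
  | 1, 3 => 2
  | 2, 0 => 2
  | 2, 1 => 3
  | 2, 2 => 0
  | 2, 3 => 1
  | 3, 0 => 3
  | 3, 1 => 2
  | 3, 2 => 1
  | 3, 3 => 0

/-- the nonzero elements -/
def g4 : Fin 3 → Fin 4
  | 0 => 1
  | 1 => 2
  | 2 => 3

/-- four trees, one for each partial sum -/
structure Q where
  q0 : Tr
  q1 : Tr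
  q2 : Tr
  q3 : Tr

/-- the tree of a partial sum -/
def Q.get (q : Q) : Fin 4 → Tr
  | 0 => q.q0
  | 1 => q.q1
  | 2 => q.q2
  | 3 => q.q3

/-- the second end of an edge -/
def old (p : ℕ) (q : Q) : Q where
  q0 := ((q.q1.sel p 0).un (q.q2.sel p 1)).un (q.q3.sel p 2)
  q1 := ((q.q0.sel p 0).un (q.q3.sel p 1)).un (q.q2.sel p 2)
  q2 := ((q.q3.sel p 0).un (q.q0.sel p 1)).un (q.q1.sel p 2)
  q3 := ((q.q2.sel p 0).un (q.q1.sel p 1)).un (q.q0.sel p 2)

/-- the first end of an edge -/
def new (q : Q) : Q where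
  q0 := Tr.mk q.q1 q.q2 q.q3
  q1 := Tr.mk q.q0 q.q3 q.q2
  q2 := Tr.mk q.q3 q.q0 q.q1
  q3 := Tr.mk q.q2 q.q1 q.q0

theorem mem_old (q : Q) (p : ℕ) (d : Fin 3) (a : Fin 4) (l : List (Fin 3))
    (h : (q.get a).mem l) (hp : l[p]? = some d) :
    ((old p q).get (ad a (g4 d))).mem (l.eraseIdx p) := by
  have key := fun (t : Tr) (h : t.mem l) => Tr.mem_sel t p d l h hp
  match a, d with
  | 0, 0 => exact Tr.mem_un _ _ _ (Or.inl (Tr.mem_un _ _ _ (Or.inl (key _ h))))
  | 0, 1 => exact Tr.mem_un _ _ _ (Or.inl (Tr.mem_un _ _ _ (Or.inr (key _ h))))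
  | 0, 2 => exact Tr.mem_un _ _ _ (Or.inr (key _ h))
  | 1, 0 => exact Tr.mem_un _ _ _ (Or.inl (Tr.mem_un _ _ _ (Or.inl (key _ h))))
  | 1, 1 => exact Tr.mem_un _ _ _ (Or.inl (Tr.mem_un _ _ _ (Or.inr (key _ h))))
  | 1, 2 => exact Tr.mem_un _ _ _ (Or.inr (key _ h))
  | 2, 0 => exact Tr.mem_un _ _ _ (Or.inl (Tr.mem_un _ _ _ (Or.inl (key _ h))))
  | 2, 1 => exact Tr.mem_un _ _ _ (Or.inl (Tr.mem_un _ _ _ (Or.inr (key _ h))))
  | 2, 2 => exact Tr.mem_un _ _ _ (Or.inr (key _ h))
  | 3, 0 => exact Tr.mem_un _ _ _ (Or.inl (Tr.mem_un _ _ _ (Or.inl (key _ h))))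
  | 3, 1 => exact Tr.mem_un _ _ _ (Or.inl (Tr.mem_un _ _ _ (Or.inr (key _ h))))
  | 3, 2 => exact Tr.mem_un _ _ _ (Or.inr (key _ h))

theorem mem_new (q : Q) (d : Fin 3) (a : Fin 4) (l : List (Fin 3))
    (h : (q.get a).mem l) : ((new q).get (ad a (g4 d))).mem (d :: l) := by
  match a, d with
  | 0, 0 => exact Tr.mem_mk ((Tr.mem_cons _ _ _ _ _).2 (Or.inl ⟨rfl, h⟩))
  | 0, 1 => exact Tr.mem_mk ((Tr.mem_cons _ _ _ _ _).2 (Or.inr (Or.inl ⟨rfl, h⟩)))
  | 0, 2 => exact Tr.mem_mk ((Tr.mem_cons _ _ _ _ _).2 (Or.inr (Or.inr ⟨rfl, h⟩)))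
  | 1, 0 => exact Tr.mem_mk ((Tr.mem_cons _ _ _ _ _).2 (Or.inl ⟨rfl, h⟩))
  | 1, 1 => exact Tr.mem_mk ((Tr.mem_cons _ _ _ _ _).2 (Or.inr (Or.inl ⟨rfl, h⟩)))
  | 1, 2 => exact Tr.mem_mk ((Tr.mem_cons _ _ _ _ _).2 (Or.inr (Or.inr ⟨rfl, h⟩)))
  | 2, 0 => exact Tr.mem_mk ((Tr.mem_cons _ _ _ _ _).2 (Or.inl ⟨rfl, h⟩))
  | 2, 1 => exact Tr.mem_mk ((Tr.mem_cons _ _ _ _ _).2 (Or.inr (Or.inl ⟨rfl, h⟩)))
  | 2, 2 => exact Tr.mem_mk ((Tr.mem_cons _ _ _ _ _).2 (Or.inr (Or.inr ⟨rfl, h⟩)))
  | 3, 0 => exact Tr.mem_mk ((Tr.mem_cons _ _ _ _ _).2 (Or.inl ⟨rfl, h⟩))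
  | 3, 1 => exact Tr.mem_mk ((Tr.mem_cons _ _ _ _ _).2 (Or.inr (Or.inl ⟨rfl, h⟩)))
  | 3, 2 => exact Tr.mem_mk ((Tr.mem_cons _ _ _ _ _).2 (Or.inr (Or.inr ⟨rfl, h⟩)))

/-- the place of an edge in the list of the active edges -/
def place (e : ℕ) : List ℕ → Option ℕ
  | [] => none
  | f :: F => if f = e then some 0 else (place e F).map (· + 1)

theorem place_spec {e : ℕ} {F : List ℕ} {p : ℕ} (h : place e F = some p) : F[p]? = some e := by
  induction F generalizing p with
  | nil => simp [place] at h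
  | cons f F ih =>
    unfold place at h
    split at h
    · rename_i hf
      simp only [Option.some.injEq] at h
      subst h
      simp [hf]
    · rw [Option.map_eq_some_iff] at h
      obtain ⟨r, hr, rfl⟩ := h
      simpa using ih hr

/-- one end of an edge -/
def proc (e : ℕ) (s : List ℕ × Q) : List ℕ × Q :=
  match place e s.1 with
  | some p => (s.1.eraseIdx p, old p s.2)
  | none => (e :: s.1, new s.2)

theorem mem_proc (x : ℕ → Fin 3) (e : ℕ) (s : List ℕ × Q) (a : Fin 4)
    (h : (s.2.get a).mem (s.1.map x)) :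
    ((proc e s).2.get (ad a (g4 (x e)))).mem ((proc e s).1.map x) := by
  unfold proc
  split
  · rename_i p hp
    have h1 : (s.1.map x)[p]? = some (x e) := by
      rw [List.getElem?_map, place_spec hp]; rfl
    have h2 := mem_old s.2 p (x e) a _ h h1
    rw [← List.eraseIdx_map]
    exact h2
  · exact mem_new s.2 (x e) a _ h

/-- a vertex: its three edges and the value of the boundary -/
structure Vx where
  e1 : ℕ
  e2 : ℕ
  e3 : ℕ
  β : Fin 4

/-- the elimination of the vertices of a list -/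
def run : List Vx → List ℕ → Tr → Tr
  | [], _, T => T
  | v :: L, F, T =>
    let s := proc v.e3 (proc v.e2 (proc v.e1 (F, ⟨T, .n, .n, .n⟩)))
    run L s.1 (s.2.get v.β)

theorem mem_run (x : ℕ → Fin 3) (L : List Vx) : ∀ (F : List ℕ) (T : Tr), T.mem (F.map x) →
    (∀ v ∈ L, ad (ad (g4 (x v.e1)) (g4 (x v.e2))) (g4 (x v.e3)) = v.β) →
    ∃ l, (run L F T).mem l := by
  induction L with
  | nil => intro F T h _; exact ⟨_, h⟩
  | cons v L ih =>
    intro F T h hv
    unfold run
    apply ih
    · have h1 := mem_proc x v.e1 (F, ⟨T, .n, .n, .n⟩) 0 h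
      have h2 := mem_proc x v.e2 _ _ h1
      have h3 := mem_proc x v.e3 _ _ h2
      have h4 : ad (ad (ad 0 (g4 (x v.e1))) (g4 (x v.e2))) (g4 (x v.e3)) = v.β :=
        hv v List.mem_cons_self
      rw [h4] at h3
      exact h3
    · intro w hw
      exact hv w (List.mem_cons_of_mem _ hw)

theorem run_sound (L : List Vx) (h : (run L [] .y).isN = true) (x : ℕ → Fin 3) :
    ¬ ∀ v ∈ L, ad (ad (g4 (x v.e1)) (g4 (x v.e2))) (g4 (x v.e3)) = v.β := by
  intro hv
  obtain ⟨l, hl⟩ := mem_run x L [] .y trivial hv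
  match hr : run L [] .y with
  | .n => rw [hr] at hl; exact hl
  | .y => rw [hr] at h; exact absurd h (by simp [Tr.isN])
  | .b _ _ _ => rw [hr] at h; exact absurd h (by simp [Tr.isN])

/-! ### Small cuts -/

/-- the number of the earlier neighbours on the other side -/
def diff (m : ℕ) (c : Bool) : List ℕ → ℕ
  | [] => 0
  | j :: L => (if m.testBit j = c then 0 else 1) + diff m c L

/-- the search: lists of the earlier neighbours, assignment, next vertex, size of the cut, numbers
of the vertices on the two sides -/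
def srch : List (List ℕ) → ℕ → ℕ → ℕ → ℕ → ℕ → Bool
  | [], _, _, c, a, d => Nat.ble 4 c || Nat.ble a 1 || Nat.ble d 1
  | B :: L, m, k, c, a, d =>
    Nat.ble 4 c ||
      (srch L m (k + 1) (c + diff m false B) a (d + 1) &&
        srch L (m ||| 2 ^ k) (k + 1) (c + diff m true B) (a + 1) d)

/-- the size of the cut of `s` -/
def cutS (s : ℕ → Bool) : List (List ℕ) → ℕ → ℕ
  | [], _ => 0
  | B :: L, k => (B.filter (fun j => s j ≠ s k)).length + cutS s L (k + 1)

theorem diff_eq (s : ℕ → Bool) (m k : ℕ) (c : Bool) (hm : ∀ j < k, m.testBit j = s j)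
    (B : List ℕ) (hB : ∀ j ∈ B, j < k) :
    diff m c B = (B.filter (fun j => s j ≠ c)).length := by
  induction B with
  | nil => rfl
  | cons j B ih =>
    have h1 := hm j (hB j List.mem_cons_self)
    have h2 := ih (fun i hi => hB i (List.mem_cons_of_mem _ hi))
    unfold diff
    rw [h1, h2, List.filter_cons]
    by_cases h : s j = c
    · simp [h]
    · simp [h]; omega

theorem srch_sound (s : ℕ → Bool) : ∀ (L : List (List ℕ)) (m k c a d : ℕ),
    (∀ j < k, m.testBit j = s j) → (∀ j, k ≤ j → m.testBit j = false) →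
    (∀ (i : ℕ) (B : List ℕ), L[i]? = some B → ∀ j ∈ B, j < k + i) →
    a = ((Finset.range k).filter (fun i => s i = true)).card →
    d = ((Finset.range k).filter (fun i => s i = false)).card →
    srch L m k c a d = true →
    4 ≤ c + cutS s L k ∨
      ((Finset.range (k + L.length)).filter (fun i => s i = true)).card ≤ 1 ∨
      ((Finset.range (k + L.length)).filter (fun i => s i = false)).card ≤ 1 := by
  intro L
  induction L with
  | nil =>
    intro m k c a d _ _ _ ha hd h
    simp only [srch, Bool.or_eq_true, Nat.ble_eq] at h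
    simp only [cutS, List.length_nil, add_zero]
    rw [← ha, ← hd]
    tauto
  | cons B L ih =>
    intro m k c a d hm hm2 hL ha hd h
    simp only [srch, Bool.or_eq_true, Bool.and_eq_true, Nat.ble_eq] at h
    rcases h with h | ⟨h1, h2⟩
    · left; omega
    have hB : ∀ j ∈ B, j < k := by
      intro j hj
      have := hL 0 B (by simp) j hj
      omega
    have hL' : ∀ (i : ℕ) (C : List ℕ), L[i]? = some C → ∀ j ∈ C, j < k + 1 + i := by
      intro i C hC j hj
      have := hL (i + 1) C (by simpa using hC) j hj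
      omega
    have e1 : k + (B :: L).length = (k + 1) + L.length := by
      rw [List.length_cons]; omega
    rw [e1]
    have hcut : cutS s (B :: L) k = (B.filter (fun j => s j ≠ s k)).length + cutS s L (k + 1) := rfl
    rw [hcut, ← add_assoc]
    cases hk : s k with
    | false =>
      have h3 := diff_eq s m k false hm B hB
      rw [h3] at h1
      refine ih m (k + 1) _ a (d + 1) ?_ (fun j hj => hm2 j (by omega)) hL' ?_ ?_ h1
      · intro j hj
        rcases Nat.lt_succ_iff_lt_or_eq.1 hj with hj | rfl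
        · exact hm j hj
        · rw [hk]
          exact hm2 j le_rfl
      · rw [Finset.range_add_one, Finset.filter_insert, hk]
        simpa using ha
      · rw [Finset.range_add_one, Finset.filter_insert, hk]
        rw [if_pos rfl, Finset.card_insert_of_notMem (by simp), ← hd]
    | true =>
      have h3 := diff_eq s m k true hm B hB
      rw [h3] at h2
      refine ih (m ||| 2 ^ k) (k + 1) _ (a + 1) d ?_ ?_ hL' ?_ ?_ h2
      · intro j hj
        rw [Nat.testBit_or, Nat.testBit_two_pow]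
        rcases Nat.lt_succ_iff_lt_or_eq.1 hj with hj | rfl
        · rw [hm j hj]
          have : (decide (k = j)) = false := by simp; omega
          rw [this, Bool.or_false]
        · rw [hk]; simp
      · intro j hj
        rw [Nat.testBit_or, Nat.testBit_two_pow, hm2 j (by omega)]
        have : (decide (k = j)) = false := by simp; omega
        rw [this, Bool.or_false]
      · rw [Finset.range_add_one, Finset.filter_insert, hk]
        rw [if_pos rfl, Finset.card_insert_of_notMem (by simp), ← ha]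
      · rw [Finset.range_add_one, Finset.filter_insert, hk]
        simpa using hd

end Pool.Agent.ASN
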